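import Pool.Agent.H24.L7.Stmts
import Pool.Agent.H22.LQ.FIN3

/-!
# LQ in dimension seven: the final theorem
-/

set_option autoImplicit false

namespace Pool.LQ

open Finset Real
open Pool.Agent.H49.Ent Pool.Agent.H32.Dense Pool.Agent.H24.KTH

open Fin22 in
theorem fin7 (hPUR : PUR7Stmt) (hLPG : LPGStmt) (hLPA : LPAStmt) (hLVO : LVO7Stmt)
    (hHCB : HCBStmt) (hDCS : DCSStmt) : FIN7Stmt := by
  intro q hq
  have hk1 : kp (8377 / 5000) = 30480871 / 145829129 := by
    unfold kp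
    norm_num
  have hP := hLPG 6 (8377 / 5000) 7.9 (kp (8377 / 5000)) (by norm_num) (by norm_num)
    (by rw [hk1]; norm_num) hPUR
  have hA := hLPA 6 (8377 / 5000) 7.9 (kp (8377 / 5000)) (by norm_num) (by norm_num)
    (by rw [hk1]; norm_num) hP (1 / 5000) (by norm_num)
  have hmax : max (7.9 : ℝ) ((1 + 1 / 5000) * (8377 / 5000 + ((6 : ℕ) : ℝ) + kp (8377 / 5000))) =
      7.9 := by
    rw [max_eq_left]
    rw [hk1]
    norm_num
  rw [hmax] at hA
  have hL := hLVO hA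
  have hgap := gap_of_aksg hL
  have hds := hHCB 6 (3197 / 2000) (3197 / 2000 + 6) 0 (by norm_num) le_rfl (by norm_num)
    (by norm_num) hgap
  have e1 : (3197 / 2000 : ℝ) * ((6 : ℕ) : ℝ) / (((6 : ℕ) : ℝ) + 0) = 3197 / 2000 := by norm_num
  have e2 : (3197 / 2000 + 6 : ℝ) * ((6 : ℕ) : ℝ) / (((6 : ℕ) : ℝ) + 0) = 3197 / 2000 + 6 := by
    norm_num
  rw [e1, e2] at hds
  have hcount := hDCS 6 (3197 / 2000) (3197 / 2000 + 6) (by norm_num) (by norm_num) hds
  refine Pool.Agent.H53.Kak.lossless_of_restricted (by norm_num)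
    (by norm_num : (1 : ℝ) ≤ 3197 / 2000)
    (Pool.Agent.H53.Dns.restricted_of_count (by norm_num) hcount) ?_
  push_cast
  norm_num at hq ⊢
  linarith

end Pool.LQ
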