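import Pool.Agent.H24.L7.Stmts

/-!
# LQ in dimension seven: the gain for the exponent `1.6754`
-/

set_option autoImplicit false

namespace Pool.LQ

open Finset Real
open Pool.Agent.H49.Ent Pool.Agent.H32.Dense Pool.Agent.H24.KTH

namespace PUR724

lemma nx2 : nx 2 = 7 / 4 := by unfold nx; norm_num

lemma kpn {a : ℝ} (h1 : 1 ≤ a) (h2 : a ≤ 2) : 0 ≤ kp a := by
  unfold kp
  apply div_nonneg
  · nlinarith
  · nlinarith

/-- The inequality with the gain is monotone. -/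
lemma gmono (hSBP : SBPStmt) {d : ℕ} {a b Λ Λ' k : ℝ} (hab : a ≤ b) (hΛ : Λ + (b - a) ≤ Λ')
    (hG : GapG d a Λ k) : GapG d b Λ' k := by
  intro ε hε
  obtain ⟨B₀, B₁, hB, hG⟩ := hG ε hε
  refine ⟨B₀, B₁, hB, ?_⟩
  intro J Ω _ ζ p Z v u τ h
  have hK := Kf_nonneg h
  obtain ⟨-, hS1, -⟩ := hSBP d J Ω ζ p Z v u τ h
  have hSf : 0 ≤ Sf (2 ^ J) p Z v u τ := by
    unfold Sf
    exact CH_nonneg h.hp _ _
  have hSb : 0 ≤ Sb (2 ^ J) p Z v u τ - J * Real.log 2 + Kf (2 ^ J) p (bv Z v) τ := by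
    unfold Sb
    linarith
  have hm := mul_nonneg (sub_nonneg.mpr hab) hSb
  have hk2 := mul_le_mul_of_nonneg_right hΛ hK
  have := hG J Ω ζ p Z v u τ h
  linarith

/-- One step. -/
lemma step (hLOC : LOCStmt) (hSTP : STP4Stmt) (hGAG : GAGStmt) (hSBP : SBPStmt) {a b Λ : ℝ}
    (h1 : 1 ≤ a) (h2 : a ≤ 2) (hΛ : a + 4 ≤ Λ) (h : AKS 6 a Λ) (hb : nx a ≤ b) (hb1 : 1 ≤ b)
    (h3 : lp3 a Λ + (b - nx a) ≤ 7.71) (h4 : b ≤ 1.7) : AKS 6 b 7.71 := by
  have hg := hSTP 6 a Λ (by norm_num) h1 h2 hΛ h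
  have hg' := gmono hSBP hb h3 hg
  have hs := hGAG 6 _ _ _ (kpn h1 h2) hg'
  have hl := hLOC 6 b 7.71 hb1 (by norm_num) hs (1 / 1000) (by norm_num)
  have e : max (7.71 : ℝ) ((1 + 1 / 1000) * (b + (6 : ℕ))) = 7.71 := by
    rw [max_eq_left]
    norm_num
    linarith
  rwa [e] at hl

end PUR724

open PUR724 in
theorem pur7 (hLZR : LZRStmt) (hLOC : LOCStmt) (hSTP : STP4Stmt) (hGAG : GAGStmt)
    (hSBP : SBPStmt) : PUR7Stmt := by
  have s0 : AKS 6 2 8.008 := by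
    have h := hLOC 6 2 4 (by norm_num) (by norm_num) (hLZR 6) (1 / 1000) (by norm_num)
    have e : max (4 : ℝ) ((1 + 1 / 1000) * (2 + (6 : ℕ))) = 8.008 := by norm_num
    rwa [e] at h
  have s1 : AKSG 6 (7 / 4) 7.505 := by
    have h := hSTP 6 2 8.008 (by norm_num) (by norm_num) (by norm_num) (by norm_num) s0
    have e : lp3 2 8.008 = 7.505 := by unfold lp3; norm_num
    rw [nx2, e] at h
    exact hGAG 6 _ _ _ (kpn (by norm_num) (by norm_num)) h
  have s2 : AKS 6 (7 / 4) 7.75775 := by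
    have h := hLOC 6 (7 / 4) 7.505 (by norm_num) (by norm_num) s1 (1 / 1000) (by norm_num)
    have e : max (7.505 : ℝ) ((1 + 1 / 1000) * (7 / 4 + (6 : ℕ))) = 7.75775 := by norm_num
    rwa [e] at h
  have s3 : AKS 6 1.6931 7.71 :=
    step hLOC hSTP hGAG hSBP (by norm_num) (by norm_num) (by norm_num) s2
      (by unfold nx; norm_num) (by norm_num) (by unfold lp3 nx; norm_num) (by norm_num)
  have s4 : AKS 6 1.6795 7.71 :=
    step hLOC hSTP hGAG hSBP (by norm_num) (by norm_num) (by norm_num) s3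
      (by unfold nx; norm_num) (by norm_num) (by unfold lp3 nx; norm_num) (by norm_num)
  have s5 : AKS 6 1.6762 7.71 :=
    step hLOC hSTP hGAG hSBP (by norm_num) (by norm_num) (by norm_num) s4
      (by unfold nx; norm_num) (by norm_num) (by unfold lp3 nx; norm_num) (by norm_num)
  have s6 : AKS 6 1.6754 7.71 :=
    step hLOC hSTP hGAG hSBP (by norm_num) (by norm_num) (by norm_num) s5
      (by unfold nx; norm_num) (by norm_num) (by unfold lp3 nx; norm_num) (by norm_num)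
  have e0 : (1.6754 : ℝ) = 8377 / 5000 := by norm_num
  rw [e0] at s6
  have s7 := hSTP 6 (8377 / 5000) 7.71 (by norm_num) (by norm_num) (by norm_num) (by norm_num) s6
  exact gmono hSBP (by unfold nx; norm_num) (by unfold lp3 nx; norm_num) s7

end Pool.LQ
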