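import Pool.Agent.H60.LQ.Six

/-!
# LQ in dimension seven

THEOREM (LQ7). In `ℝ ^ 7` the inequality of Q1 holds, without loss, for every
`q > 1 + 3197 / 12000 = 1.26641..` (in particular for `q > 1 + α / (6 + 0.279 + 0.05 / 6)`). Here
`d = 6`. Numbers: `2 → 7/4 → 1.6931 → 1.6795 → 1.6762 → 1.6754 =: a`; `GapG 6 a 7.9 (kp a)`. As in
dimension six (H60/LQ/Six.lean).
-/

set_option autoImplicit false

namespace Pool.LQ

open Finset Real
open Pool.Agent.H49.Ent Pool.Agent.H32.Dense Pool.KTH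
open Pool.Agent.H24.KTH (dsv lvv lev cap Yf kp)

/-- The gain for the exponent `8377 / 5000`. -/
def PUR7Stmt : Prop := GapG 6 (8377 / 5000) 7.9 (kp (8377 / 5000))

/-- The numbers. -/
def NUM7Stmt : Prop :=
  ∃ C : ℝ, 0 ≤ C ∧ ∀ L l sb y K τ E : ℝ, 0 ≤ l → 0 ≤ K → 0 ≤ E → 0 ≤ L → L ≤ 6 * l + E →
    y ≤ l - L / 6 + E → τ ≤ 6 * l - L + E → l - K ≤ sb →
    Two (8377 / 5000) 7.9 6 L l sb y K τ E → L ≤ 2 * (sb - l) + 2 * K + E →
    L ≤ 3197 / 2000 * (sb - l) + (3197 / 2000 + 6) * K + C * E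

/-- The second level. -/
def LVO7Stmt : Prop :=
  PlusA 6 (8377 / 5000) 7.9 (kp (8377 / 5000)) → AKSG 6 (3197 / 2000) (3197 / 2000 + 6)

/-- The theorem in dimension seven. -/
def FIN7Stmt : Prop :=
  ∀ q : ℝ, 1 + 3197 / 12000 < q → ∃ C : ℝ, Pool.Agent.H53.Kak.Loss 6 q 0 C

theorem num7 : NUM7Stmt := by
  have hk : kp (8377 / 5000 : ℝ) = 30480871 / 145829129 := by
    unfold kp
    norm_num
  refine ⟨4, by norm_num, ?_⟩
  intro L l sb y K τ E hl hK hE hL hL5 hy hτ hsb hT h0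
  unfold Two cLo cIo XX ss at hT
  rw [hk] at hT
  unfold DD PP kh at hT
  norm_num at hT
  linarith

end Pool.LQ
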